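import Pool.Agent.Helper68.VN.GoalsN

/-!
# Project PG (MP_a41896_nt), packet PG-NVB: evaluation of the reduction
-/

set_option autoImplicit false

namespace Pool.Agent.Helper57.VN

open MvPolynomial WeierstrassCurve
open Pool.Agent.Helper29.BL Pool.Agent.Helper92.Ru Pool.Agent.Helper42.SG
open Pool.Agent.Helper68.VN

theorem t_NVB : NVB := by
  intro K _ V _ w F A _ _ x Ψ hW hF
  have hBf : ∀ (h : V) (t : MvPolynomial V K),
      aeval x (Bf ((w h).map (algebraMap K (MvPolynomial V K))) t) =
      Bf ((w h).map (algebraMap K A)) (aeval x t) := by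
    intro h t
    simp only [Bf, WeierstrassCurve.map_b₂, WeierstrassCurve.map_b₄,
      WeierstrassCurve.map_b₆, map_add, map_mul, map_pow, map_ofNat, AlgHom.commutes]
  have hR : aeval (Sum.elim x Ψ) F = ∑ m ∈ F.support, algebraMap K A (coeff m F) *
        ∏ i, (Sum.elim x Ψ i) ^ m i := by
    rw [aeval_def, eval₂_eq']
  rw [hR, redV, map_sum]
  refine Finset.sum_congr rfl fun m hm => ?_
  rw [map_mul, map_prod, Fintype.prod_sum_type, ← Finset.prod_mul_distrib]
  have hC : aeval x (C (coeff m F)) = algebraMap K A (coeff m F) := by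
    rw [aeval_C]
  rw [hC]
  congr 1
  refine Finset.prod_congr rfl fun h _ => ?_
  rw [map_mul, map_pow, map_pow, hBf, aeval_X]
  simp only [Sum.elim_inl, Sum.elim_inr]
  congr 1
  obtain ⟨b, hb⟩ := hF m hm h
  rw [← hW h, hb, ← two_mul, Nat.mul_div_cancel_left b (by norm_num), pow_mul]

end Pool.Agent.Helper57.VN
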