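import Pool.Agent.Helper68.VN.GoalsA

/-!
# Project PG (MP_a41896_nt), packet PG-VANB: a bad index kills the bracket
-/

set_option autoImplicit false

open MvPolynomial

namespace Pool.Agent.Helper57.VN

open Pool.Agent.Helper68.VN

/-- split the sum over all families at the index `j` -/
theorem split_sum {n : ℕ} {K : Type} [AddCommMonoid K] (β : Fin n → Type)
    [∀ j, Fintype (β j)] (j : Fin n) (d : β j) (f : (∀ j, β j) → K) :
    ∑ α, f α = ∑ rest : (∀ j' : {j' // j' ≠ j}, β j'), ∑ x : β j,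
      f (Function.update ((Equiv.piSplitAt j β).symm (d, rest)) j x) := by
  classical
  have h1 : ∑ α, f α = ∑ p : β j × (∀ j' : {j' // j' ≠ j}, β j'),
      f ((Equiv.piSplitAt j β).symm p) :=
    (Equiv.sum_comp (Equiv.piSplitAt j β).symm f).symm
  rw [h1, Fintype.sum_prod_type_right]
  refine Finset.sum_congr rfl fun rest _ => Finset.sum_congr rfl fun x _ => ?_
  congr 1
  funext j'
  by_cases hj : j' = j
  · subst hj
    rw [Function.update_self]
    simp [Equiv.piSplitAt]
  · rw [Function.update_of_ne hj]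
    simp [Equiv.piSplitAt, hj]

/-- regroup a double sum according to `g + β` -/
theorem regroup {σ : Type} [Fintype σ] [DecidableEq σ] {K : Type} [Field K] {X : Type}
    [Fintype X] (M δ : ℕ) (c : X → (σ → Fin δ) → K) (Γ : X → (σ → ℕ) → K) (h : (σ → ℕ) → K) :
    ∑ k ∈ box σ (2 * M + δ), (∑ x : X, ∑ β : σ → Fin δ, ∑ g ∈ box σ (2 * M),
      if (fun i => g i + (β i).val) = k then c x β * Γ x g else 0) * h k =
    ∑ x : X, ∑ β : σ → Fin δ, c x β * ∑ g ∈ box σ (2 * M),
      Γ x g * h (fun i => g i + (β i).val) := by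
  classical
  have e1 : ∀ k ∈ box σ (2 * M + δ), (∑ x : X, ∑ β : σ → Fin δ, ∑ g ∈ box σ (2 * M),
      if (fun i => g i + (β i).val) = k then c x β * Γ x g else 0) * h k =
      ∑ x : X, ∑ β : σ → Fin δ, ∑ g ∈ box σ (2 * M),
        if (fun i => g i + (β i).val) = k then c x β * Γ x g * h k else 0 := by
    intro k _
    rw [Finset.sum_mul]
    refine Finset.sum_congr rfl fun x _ => ?_
    rw [Finset.sum_mul]
    refine Finset.sum_congr rfl fun β _ => ?_
    rw [Finset.sum_mul]
    refine Finset.sum_congr rfl fun g _ => ?_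
    split_ifs with hh
    · rfl
    · rw [zero_mul]
  rw [Finset.sum_congr rfl e1, Finset.sum_comm]
  refine Finset.sum_congr rfl fun x _ => ?_
  rw [Finset.sum_comm]
  refine Finset.sum_congr rfl fun β _ => ?_
  rw [Finset.sum_comm, Finset.mul_sum]
  refine Finset.sum_congr rfl fun g hg => ?_
  have hm : (fun i => g i + (β i).val) ∈ box σ (2 * M + δ) := by
    unfold box at hg ⊢
    rw [Fintype.mem_piFinset] at hg ⊢
    intro i
    have h1 := hg i
    have h2 := (β i).isLt
    rw [Finset.mem_range] at h1 ⊢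
    omega
  rw [Finset.sum_ite_eq (box σ (2 * M + δ)) (fun i => g i + (β i).val)
    (fun k => c x β * Γ x g * h k), if_pos hm, mul_assoc]

/-- **VANB** -/
theorem t_VANB : VANB := by
  classical
  intro K _ _ σ _ _ n M δ k0 e S T gr r U ν x0 H hR cc hC lam μ t j hj
  set F : ∀ j : Fin n, Ax σ M (e j) → K := fun j x =>
    ∑ g ∈ box σ (2 * M), Gam S M (e j) (r j (t j)) (lam j) (μ j) g x * ∏ i, x0 i ^ g i with hF
  have hB : BrB S n M δ e T r cc x0 lam μ t = ∑ α1 : ∀ j : Fin n, Ax σ M (e j),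
      ∑ β : σ → Fin δ, cc (α1, β) * (∏ j, F j (α1 j)) * ∏ i, x0 i ^ (β i).val := by
    unfold BrB
    rw [Fintype.sum_prod_type]
  rw [hB]
  have hd : Nonempty (Ax σ M (e j)) :=
    ⟨fun _ => (⟨0, pow_pos (by norm_num) _⟩, ⟨0, Nat.succ_pos M⟩)⟩
  obtain ⟨d⟩ := hd
  rw [split_sum (fun j : Fin n => Ax σ M (e j)) j d]
  refine Finset.sum_eq_zero fun rest _ => ?_
  obtain ⟨α0, hα0⟩ : ∃ α0 : ∀ j : Fin n, Ax σ M (e j),
    α0 = (Equiv.piSplitAt j (fun j : Fin n => Ax σ M (e j))).symm (d, rest) := ⟨_, rfl⟩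
  rw [← hα0]
  have hprod : ∀ x : Ax σ M (e j), ∏ j', F j' (Function.update α0 j x j') =
      F j x * ∏ j' ∈ Finset.univ.erase j, F j' (α0 j') := by
    intro x
    rw [← Finset.mul_prod_erase Finset.univ _ (Finset.mem_univ j), Function.update_self]
    congr 1
    refine Finset.prod_congr rfl fun j' hj' => ?_
    rw [Function.update_of_ne (Finset.ne_of_mem_erase hj')]
  have hI : ∑ x : Ax σ M (e j), ∑ β : σ → Fin δ, cc (Function.update α0 j x, β) *
      ∑ g ∈ box σ (2 * M), Gam S M (e j) (r j (t j)) (lam j) (μ j) g x *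
        ∏ i, x0 i ^ (g i + (β i).val) = 0 := by
    rw [← regroup M δ (fun x β => cc (Function.update α0 j x, β))
      (fun x g => Gam S M (e j) (r j (t j)) (lam j) (μ j) g x) (fun k => ∏ i, x0 i ^ k i)]
    refine hR.red _ fun u => ?_
    have h1 := regroup M δ (fun x β => cc (Function.update α0 j x, β))
      (fun x g => Gam S M (e j) (r j (t j)) (lam j) (μ j) g x) (ν u)
    rw [hC j α0 (lam j) (μ j) (t j) hj u] at h1
    exact (Finset.sum_congr rfl fun k _ => mul_comm _ _).trans h1
  have hx : ∀ (x : Ax σ M (e j)) (β : σ → Fin δ),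
      cc (Function.update α0 j x, β) * (∏ j', F j' (Function.update α0 j x j')) *
        ∏ i, x0 i ^ (β i).val =
      (cc (Function.update α0 j x, β) *
        ∑ g ∈ box σ (2 * M), Gam S M (e j) (r j (t j)) (lam j) (μ j) g x *
          ∏ i, x0 i ^ (g i + (β i).val)) * ∏ j' ∈ Finset.univ.erase j, F j' (α0 j') := by
    intro x β
    rw [hprod]
    have h2 : ∑ g ∈ box σ (2 * M), Gam S M (e j) (r j (t j)) (lam j) (μ j) g x *
        ∏ i, x0 i ^ (g i + (β i).val) = F j x * ∏ i, x0 i ^ (β i).val := by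
      rw [hF]
      simp only
      rw [Finset.sum_mul]
      refine Finset.sum_congr rfl fun g _ => ?_
      rw [mul_assoc, ← Finset.prod_mul_distrib]
      simp only [pow_add]
    rw [h2]
    ring
  simp only [hx, ← Finset.sum_mul]
  rw [hI, zero_mul]

end Pool.Agent.Helper57.VN
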